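import Pool.Agent.W745.RW.Last
import Pool.Agent.W165.RW.Al
import Pool.Agent.W311.RW.F
import Pool.Agent.W320.RW.Main
import Pool.Agent.W366.RW.En
import Pool.Agent.W404.RW.L
import Pool.Agent.W537.RW.ST
import Pool.Agent.W578.RW.G2
import Pool.Agent.W75.RW.Two
import Pool.Agent.W849.RW.RA
import Pool.Agent.W924.RW.WP
import Pool.Agent.W450.RW.DC
import Pool.Agent.W450.RW.T
import Pool.Agent.W249.RW.GOne
import Pool.Agent.W686.RW.X
import Pool.Agent.W98.RW.Bds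
import Pool.Agent.W806.RW.Mo

/-!
# Fourth moments of quantum ergodic Laplace eigenfunctions (MP_6b977f_mp)

The plane is `ℂ`; `dx f z`, `dy f z` are the partial derivatives `fderiv ℝ f z 1`,
`fderiv ℝ f z I`, `lap f = dx (dx f) + dy (dy f)`; `TF Ω φ` says that `φ : ℂ → ℝ` is smooth with
compact support in `Ω`; `Dp h f = h (∂x f - i ∂y f)`.
-/

set_option autoImplicit false
open MeasureTheory Filter Topology Complex
open scoped ContDiff

namespace Pool.Agent.Results.MP_6b977f_mp.FourthMomentLowerBound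

open Pool.Agent.W745.RW

theorem hW : SW := Pool.Agent.W924.RW.WP.main
theorem hG : SG2 := Pool.Agent.W578.RW.G2.main
  (Pool.Agent.W249.RW.sg1 Pool.Agent.W404.RW.L.main Pool.Agent.W366.RW.energy)
theorem hBd : SBd := Pool.Agent.W98.RW.bd hW hG
theorem hDC : SDC := Pool.Agent.W450.RW.DC.main Pool.Agent.W537.RW.tSSt
  (Pool.Agent.W450.RW.RE.main Pool.Agent.W849.RW.RA.main)
theorem h2 : S2 := Pool.Agent.W75.RW.Two.two hW
theorem hT : ST := Pool.Agent.W450.RW.T.main hW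
theorem hX : SX := Pool.Agent.W686.RW.X.main hW h2 hDC
theorem hMo : Pool.Agent.W806.RW.SMo1 :=
  Pool.Agent.W806.RW.mo1 hW hT hX Pool.Agent.W165.RW.al
theorem hF : SF := Pool.Agent.W311.RW.sf hW h2 hMo
theorem hMain : SMain := Pool.Agent.W320.RW.main hBd hF

/-- **Main result.** Let `u n` be real solutions of `Δu + λ_n u = 0` on the open set `Ω`,
`λ_n → ∞`, which are quantum ergodic on `Ω`: for all test functions `φ` and all `k`,
`∫ φ u (λ^{-1/2}(∂x - i∂y))^k u → δ_{k0} ∫ φ`. Then `liminf ∫_U u_n⁴ ≥ 3 |U|` for every open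
`U ⊆ Ω`. -/
theorem result (Ω : Set ℂ) (lam : ℕ → ℝ) (u : ℕ → ℂ → ℝ)
    (hpos : ∀ n, 0 < lam n) (hlam : Tendsto lam atTop atTop)
    (hu : ∀ n, ContDiffOn ℝ ∞ (u n) Ω)
    (heq : ∀ n, ∀ z ∈ Ω, lap (u n) z + lam n * u n z = 0)
    (hqe : ∀ φ, TF Ω φ → ∀ k : ℕ, Tendsto (fun n => ∫ z, (φ z : ℂ) *
      ((u n z : ℂ) * (Dp (1 / √(lam n)))^[k] (fun w => (u n w : ℂ)) z)) atTop
      (𝓝 (if k = 0 then ((∫ z, φ z : ℝ) : ℂ) else 0))) (U : Set ℂ) (hU : IsOpen U) (hUΩ : U ⊆ Ω) :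
    3 * volume U ≤ liminf (fun n => ∫⁻ z in U, ENNReal.ofReal (u n z ^ 4)) atTop := by
  have hS := sys_of_raw Ω lam u hpos hlam hu heq hqe
  exact hMain U hU _ u (hS.mono hUΩ)

end Pool.Agent.Results.MP_6b977f_mp.FourthMomentLowerBound
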