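import Pool.Agent.W745.RW.Last
import Pool.Agent.W366.RW.En
import Pool.Agent.W404.RW.L
import Pool.Agent.W537.RW.ST
import Pool.Agent.W578.RW.G2
import Pool.Agent.W75.RW.Two
import Pool.Agent.W849.RW.RA
import Pool.Agent.W924.RW.WP
import Pool.Agent.W450.RW.DC
import Pool.Agent.W450.RW.T
import Pool.Agent.W249.RW.GOne
import Pool.Agent.W686.RW.X
import Pool.Agent.W98.RW.Bds

/-!
# Fourth moments of quantum ergodic Laplace eigenfunctions (MP_6b977f_mp)

The plane is `ℂ`; `dx f z`, `dy f z` are the partial derivatives `fderiv ℝ f z 1`,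
`fderiv ℝ f z I`, `lap f = dx (dx f) + dy (dy f)`; `TF Ω φ` says that `φ : ℂ → ℝ` is smooth with
compact support in `Ω`; `Dp h f = h (∂x f - i ∂y f)`.
-/

set_option autoImplicit false
open MeasureTheory Filter Topology Complex
open scoped ContDiff

namespace Pool.Agent.Results.MP_6b977f_mp.FourthOrderRigidity

open Pool.Agent.W745.RW

theorem hW : SW := Pool.Agent.W924.RW.WP.main
theorem hG : SG2 := Pool.Agent.W578.RW.G2.main
  (Pool.Agent.W249.RW.sg1 Pool.Agent.W404.RW.L.main Pool.Agent.W366.RW.energy)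
theorem hBd : SBd := Pool.Agent.W98.RW.bd hW hG
theorem hDC : SDC := Pool.Agent.W450.RW.DC.main Pool.Agent.W537.RW.tSSt
  (Pool.Agent.W450.RW.RE.main Pool.Agent.W849.RW.RA.main)
theorem h2 : S2 := Pool.Agent.W75.RW.Two.two hW
theorem hT : ST := Pool.Agent.W450.RW.T.main hW
theorem hX : SX := Pool.Agent.W686.RW.X.main hW h2 hDC
/-- **Result.** Let `u n` be real solutions of `Δu + λ_n u = 0` on the open set `Ω`, `λ_n → ∞`,
quantum ergodic on `Ω` and with locally bounded fourth moments. For all integers with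
`a+b+c+d = 0`, the local fourth moment of `(D^a u, D^b u, D^c u, D^d u)` minus `ε(a,b,c,d)` times
the local fourth moment of `u` converges to the value of this difference for the Gaussian random
wave. -/
theorem result (Ω : Set ℂ) (hΩ : IsOpen Ω) (lam : ℕ → ℝ) (u : ℕ → ℂ → ℝ)
    (hpos : ∀ n, 0 < lam n) (hlam : Tendsto lam atTop atTop)
    (hu : ∀ n, ContDiffOn ℝ ∞ (u n) Ω)
    (heq : ∀ n, ∀ z ∈ Ω, lap (u n) z + lam n * u n z = 0)
    (hqe : ∀ φ, TF Ω φ → ∀ k : ℕ, Tendsto (fun n => ∫ z, (φ z : ℂ) *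
      ((u n z : ℂ) * (Dp (1 / √(lam n)))^[k] (fun w => (u n w : ℂ)) z)) atTop
      (𝓝 (if k = 0 then ((∫ z, φ z : ℝ) : ℂ) else 0)))
    (hK : ∀ K : Set ℂ, IsCompact K → K ⊆ Ω → ∃ C : ℝ, ∀ᶠ n in atTop, ∫ z in K, u n z ^ 4 ≤ C)
    (φ : ℂ → ℝ) (hφ : TF Ω φ) (a b c d : ℤ) (hs : a + b + c + d = 0) :
    Tendsto (fun n => (∫ z, (φ z : ℂ) * (W (1 / √(lam n)) (u n) a z * W (1 / √(lam n)) (u n) b z *
        W (1 / √(lam n)) (u n) c z * W (1 / √(lam n)) (u n) d z))
      - eps a b c d * (∫ z, (φ z : ℂ) * (u n z : ℂ) ^ 4)) atTop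
      (𝓝 ((CC a b * CC c d + CC a c * CC b d + CC a d * CC b c - 3 * eps a b c d)
        * (∫ z, φ z : ℝ))) := by
  have hS := sys_of_raw Ω lam u hpos hlam hu heq hqe
  have hB : Bd Ω (fun n => 1 / √(lam n)) u := hBd Ω hΩ _ u hS.sol hS.hlim hK
  have key := momOpen hW hT hX Pool.Agent.W745.RW.AlB.al2' Ω hΩ _ u hS hB φ hφ a b c d hs
  refine key.congr (fun n => ?_)
  have i0 : MM φ (fun n => 1 / √(lam n)) u 0 0 0 0 n = ∫ z, (φ z : ℂ) * (u n z : ℂ) ^ 4 := by
    unfold MM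
    congr 1; ext z
    simp only [Dp0]; ring
  rw [i0]; rfl

end Pool.Agent.Results.MP_6b977f_mp.FourthOrderRigidity
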